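import Pool.Agent.Helper46.C2.St

/-!
Project C2 (MP_b3ce06_al), module SID: Sidon property of the roots of `X^k + X + 1`.
-/

set_option autoImplicit false

namespace Pool.Agent.Helper40.C2

open Pool.Agent.Helper46.C2

theorem hSID : StSID := by
  intro K _ _ k h2 hk
  classical
  have : Fintype K := Fintype.ofFinite K
  let R : Finset K := Finset.univ.filter fun α => α ^ k = α + 1
  have hR : ∀ α : K, α ∈ R ↔ α ^ k = α + 1 := by
    intro α
    simp [R]
  have hc : Nat.card {α : K // α ^ k = α + 1} = R.card := by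
    rw [Nat.card_eq_fintype_card, Fintype.card_subtype]
  have h0 : ∀ α ∈ R, α ≠ 0 := by
    intro α hα hz
    rw [hR, hz, zero_pow (by omega), zero_add] at hα
    exact zero_ne_one hα
  have key : ∀ p ∈ R.offDiag, p.1 * ((p.2 / p.1) ^ k - p.2 / p.1) = 1 - (p.2 / p.1) ^ k ∧
      p.1 ≠ 0 ∧ (p.2 / p.1) ^ k ≠ p.2 / p.1 ∧ p.2 / p.1 ≠ 0 ∧ p.2 / p.1 ≠ 1 := by
    intro p hp
    rw [Finset.mem_offDiag] at hp
    obtain ⟨h1, h3, h4⟩ := hp
    have ha := h0 _ h1
    have hb := h0 _ h3
    rw [hR] at h1 h3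
    have e1 : p.1 * (p.2 / p.1) = p.2 := by field_simp
    have e2 : p.1 * ((p.2 / p.1) ^ k - p.2 / p.1) = 1 - (p.2 / p.1) ^ k := by
      have e3 : (p.2 / p.1) ^ k * (p.1 + 1) = p.2 + 1 := by
        rw [← h1, ← h3, ← mul_pow, mul_comm (p.2 / p.1), e1]
      linear_combination e3 - e1
    have hz0 : p.2 / p.1 ≠ 0 := div_ne_zero hb ha
    have hz1 : p.2 / p.1 ≠ 1 := by
      intro h
      rw [div_eq_one_iff_eq ha] at h
      exact h4 h.symm
    refine ⟨e2, ha, ?_, hz0, hz1⟩
    intro h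
    rw [h, sub_self, mul_zero] at e2
    exact hz1 (sub_eq_zero.1 e2.symm).symm
  have hinj : Set.InjOn (fun p : K × K => p.2 / p.1) R.offDiag := by
    intro p hp q hq hpq
    have hp' := key p hp
    have hq' := key q hq
    have hpq' : p.2 / p.1 = q.2 / q.1 := hpq
    rw [hpq'] at hp'
    have h1 : p.1 = q.1 := by
      have h3 : (q.2 / q.1) ^ k - q.2 / q.1 ≠ 0 := sub_ne_zero.2 hq'.2.2.1
      apply mul_right_cancel₀ h3
      rw [hp'.1, hq'.1]
    have h3 : p.2 = q.2 := by
      rw [h1, div_left_inj' hq'.2.1] at hpq'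
      exact hpq'
    exact Prod.ext h1 h3
  have hmaps : ∀ p ∈ R.offDiag, p.2 / p.1 ∈ (Finset.univ.erase (0 : K)).erase 1 := by
    intro p hp
    rw [Finset.mem_erase, Finset.mem_erase]
    exact ⟨(key p hp).2.2.2.2, (key p hp).2.2.2.1, Finset.mem_univ _⟩
  have hle := Finset.card_le_card_of_injOn (fun p : K × K => p.2 / p.1) hmaps hinj
  have hcard : ((Finset.univ.erase (0 : K)).erase 1).card = Fintype.card K - 2 := by
    rw [Finset.card_erase_of_mem (by simp), Finset.card_erase_of_mem (Finset.mem_univ _),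
      Finset.card_univ]
    omega
  have hK2 : 2 ≤ Fintype.card K := Fintype.one_lt_card
  rw [Finset.offDiag_card, hcard] at hle
  rw [hc, Nat.card_eq_fintype_card, Nat.mul_sub, mul_one]
  omega

end Pool.Agent.Helper40.C2
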